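import Pool.Agent.Q17.Affine.PGroup

/-! Affine maps of finite nilpotent groups: the order is attained as a cycle length. -/

namespace Q17.Affine

open Finset

/-- A permutation `A` of a group is affine if `A x = t * α x` for an automorphism `α` and an
element `t`. -/
def IsAffine {G : Type*} [Group G] (A : Equiv.Perm G) : Prop :=
  ∃ (α : MulAut G) (t : G), ∀ x, A x = t * α x

variable {P : Type*} [Group P]

lemma IsAffine.pow {A : Equiv.Perm P} (hA : IsAffine A) (n : ℕ) : IsAffine (A ^ n) := by
  obtain ⟨α, t, h⟩ := hA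
  induction n with
  | zero => exact ⟨1, 1, fun x => by simp⟩
  | succ n ih =>
    obtain ⟨β, s, h'⟩ := ih
    refine ⟨β * α, s * β t, fun x => ?_⟩
    rw [pow_succ, Equiv.Perm.mul_apply, h', h, map_mul, MulAut.mul_apply, mul_assoc]

/-- recentering an affine map at a fixed point -/
lemma IsAffine.recenter {B : Equiv.Perm P} (hB : IsAffine B) {x₀ : P} (h0 : B x₀ = x₀) :
    ∃ β : MulAut P, ∀ y, B (x₀ * y) = x₀ * β y := by
  obtain ⟨β, s, h⟩ := hB
  refine ⟨β, fun y => ?_⟩
  rw [h, map_mul, ← mul_assoc, ← h, h0]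

/-- Common fixed points of commuting affine maps of prime orders different from `p`. -/
lemma exists_common_fixed [Finite P] {p : ℕ} [hp : Fact p.Prime] (hP : IsPGroup p P)
    (S : Set (Equiv.Perm P)) (hS : ∀ f ∈ S, IsAffine f) (x₁ : P) (hx₁ : ∀ f ∈ S, f x₁ = x₁)
    (T : Finset ℕ) (B : ℕ → Equiv.Perm P) (hBaff : ∀ r ∈ T, IsAffine (B r))
    (hprime : ∀ r ∈ T, r.Prime) (hTp : p ∉ T) (hpow : ∀ r ∈ T, B r ^ r = 1)
    (hcomm : ∀ r ∈ T, ∀ s ∈ T, Commute (B r) (B s))
    (hcommS : ∀ r ∈ T, ∀ f ∈ S, Commute (B r) f) :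
    ∃ x₀, (∀ f ∈ S, f x₀ = x₀) ∧ ∀ r ∈ T, B r x₀ = x₀ := by
  classical
  induction T using Finset.induction_on with
  | empty => exact ⟨x₁, hx₁, by simp⟩
  | insert r T hrT ih =>
    obtain ⟨x₀, hx₀S, hx₀T⟩ := ih (fun s hs => hBaff s (mem_insert_of_mem hs))
      (fun s hs => hprime s (mem_insert_of_mem hs)) (fun h => hTp (mem_insert_of_mem h))
      (fun s hs => hpow s (mem_insert_of_mem hs))
      (fun s hs t ht => hcomm s (mem_insert_of_mem hs) t (mem_insert_of_mem ht))
      (fun s hs => hcommS s (mem_insert_of_mem hs))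
    have hr := mem_insert_self r T
    -- the fixed set
    let Q : P → Prop := fun x => (∀ f ∈ S, f x = x) ∧ ∀ s ∈ T, B s x = x
    let H : Subgroup P :=
      { carrier := {y | Q (x₀ * y)}
        one_mem' := by
          change Q (x₀ * 1)
          rw [mul_one]
          exact ⟨hx₀S, hx₀T⟩
        mul_mem' := by
          intro a b ha hb
          constructor
          · intro f hf
            obtain ⟨φ, hφ⟩ := (hS f hf).recenter (hx₀S f hf)
            have h1 := ha.1 f hf
            have h2 := hb.1 f hf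
            rw [hφ] at h1 h2 ⊢
            rw [map_mul, mul_left_cancel h1, mul_left_cancel h2]
          · intro s hs
            obtain ⟨φ, hφ⟩ := (hBaff s (mem_insert_of_mem hs)).recenter (hx₀T s hs)
            have h1 := ha.2 s hs
            have h2 := hb.2 s hs
            rw [hφ] at h1 h2 ⊢
            rw [map_mul, mul_left_cancel h1, mul_left_cancel h2]
        inv_mem' := by
          intro a ha
          constructor
          · intro f hf
            obtain ⟨φ, hφ⟩ := (hS f hf).recenter (hx₀S f hf)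
            have h1 := ha.1 f hf
            rw [hφ] at h1 ⊢
            rw [map_inv, mul_left_cancel h1]
          · intro s hs
            obtain ⟨φ, hφ⟩ := (hBaff s (mem_insert_of_mem hs)).recenter (hx₀T s hs)
            have h1 := ha.2 s hs
            rw [hφ] at h1 ⊢
            rw [map_inv, mul_left_cancel h1] }
    let X := {x : P // Q x}
    have hinv : ∀ x : P, Q x → Q (B r x) := by
      intro x hx
      constructor
      · intro f hf
        have hc := hcommS r hr f hf
        rw [← Equiv.Perm.mul_apply, ← hc.eq, Equiv.Perm.mul_apply, hx.1 f hf]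
      · intro s hs
        have hc := hcomm r hr s (mem_insert_of_mem hs)
        rw [← Equiv.Perm.mul_apply, ← hc.eq, Equiv.Perm.mul_apply, hx.2 s hs]
    have hinv' : ∀ (n : ℕ) (x : P), Q x → Q ((B r ^ n) x) := by
      intro n
      induction n with
      | zero => intro x hx; simpa using hx
      | succ n ihn =>
        intro x hx
        rw [pow_succ', Equiv.Perm.mul_apply]
        exact hinv _ (ihn x hx)
    have hiff : ∀ x : P, Q (B r x) ↔ Q x := by
      intro x
      refine ⟨?_, hinv x⟩
      intro h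
      have h1 := hinv' (r - 1) _ h
      have hr1 : r - 1 + 1 = r := Nat.succ_pred_eq_of_pos (hprime r hr).pos
      have h2 : (B r ^ (r - 1)) (B r x) = x := by
        rw [← Equiv.Perm.mul_apply, ← pow_succ, hr1, hpow r hr]
        rfl
      rwa [h2] at h1
    let σ : Equiv.Perm X := Equiv.Perm.subtypePerm (B r) (fun x => hiff x)
    have hσ : ∀ (n : ℕ) (z : X), ((σ ^ n) z : P) = (B r ^ n) (z : P) := by
      intro n
      induction n with
      | zero => intro z; simp
      | succ n ihn =>
        intro z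
        rw [pow_succ, Equiv.Perm.mul_apply, ihn, pow_succ, Equiv.Perm.mul_apply]
        rfl
    have hσr : σ ^ r ^ 1 = 1 := by
      rw [pow_one]
      apply Equiv.ext
      intro z
      apply Subtype.ext
      rw [hσ, hpow r hr]
      rfl
    have e : X ≃ H :=
      { toFun := fun z => ⟨x₀⁻¹ * z.1, by
          change Q (x₀ * (x₀⁻¹ * z.1))
          rw [mul_inv_cancel_left]
          exact z.2⟩
        invFun := fun c => ⟨x₀ * c.1, c.2⟩
        left_inv := by intro z; apply Subtype.ext; simp
        right_inv := by intro z; apply Subtype.ext; simp }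
    have := Fintype.ofFinite X
    have hcard : Fintype.card X = Nat.card H := by
      rw [← Nat.card_eq_fintype_card]; exact Nat.card_congr e
    have hndvd : ¬ r ∣ Fintype.card X := by
      rw [hcard]
      refine not_dvd_of_pgroup (p := p) (hprime r hr) ?_ (IsPGroup.iff_card.mp (hP.to_subgroup _))
      rintro rfl
      exact hTp hr
    have : Fact r.Prime := ⟨hprime r hr⟩
    obtain ⟨a, ha⟩ := Equiv.Perm.exists_fixed_point_of_prime (p := r) (n := 1) hndvd hσr
    refine ⟨a.1, a.2.1, ?_⟩
    intro s hs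
    rw [mem_insert] at hs
    rcases hs with rfl | hs
    · exact congrArg Subtype.val ha
    · exact a.2.2 s hs

/-- A point moved by all `A ^ (n / r)`, `r ∣ n` prime, `n` the order of `A`, has minimal period
`n`. -/
lemma minimalPeriod_eq {X : Type*} (A : Equiv.Perm X) (x : X)
    (hn : orderOf A ≠ 0) (h : ∀ r ∈ (orderOf A).primeFactors, (A ^ (orderOf A / r)) x ≠ x) :
    Function.minimalPeriod A x = orderOf A := by
  have hit : ∀ n : ℕ, (A : X → X)^[n] x = (A ^ n) x := by
    intro n
    rw [Equiv.Perm.iterate_eq_pow]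
  have hdvd : Function.minimalPeriod A x ∣ orderOf A := by
    apply Function.IsPeriodicPt.minimalPeriod_dvd
    change (A : X → X)^[orderOf A] x = x
    rw [hit, pow_orderOf_eq_one]
    rfl
  obtain ⟨k, hk⟩ := hdvd
  by_contra hne
  have hk1 : k ≠ 1 := by
    rintro rfl
    exact hne (by rw [hk, mul_one])
  obtain ⟨r, hr, hrk⟩ := Nat.exists_prime_and_dvd hk1
  have hrn : r ∣ orderOf A := by
    rw [hk]
    exact Dvd.dvd.mul_left hrk _
  apply h r (Nat.mem_primeFactors.mpr ⟨hr, hrn, hn⟩)
  obtain ⟨l, rfl⟩ := hrk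
  have h1 : orderOf A / r = Function.minimalPeriod A x * l := by
    rw [hk]
    rw [show Function.minimalPeriod A x * (r * l) = r * (Function.minimalPeriod A x * l) by ring]
    exact Nat.mul_div_cancel_left _ hr.pos
  rw [h1, ← hit]
  exact (Function.isPeriodicPt_minimalPeriod A x).mul_const l

/-- The theorem for `p`-groups. -/
theorem affine_pgroup [Finite P] {p : ℕ} [hp : Fact p.Prime] (hP : IsPGroup p P)
    (A : Equiv.Perm P) (hA : IsAffine A) : ∃ x, Function.minimalPeriod A x = orderOf A := by
  classical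
  have hn : orderOf A ≠ 0 := (orderOf_pos A).ne'
  set n := orderOf A with hndef
  let B : ℕ → Equiv.Perm P := fun r => A ^ (n / r)
  have hBaff : ∀ r, IsAffine (B r) := fun r => hA.pow _
  have hBcomm : ∀ r s, Commute (B r) (B s) := fun r s =>
    (Commute.refl A).pow_pow _ _
  have hBpow : ∀ r ∈ n.primeFactors, B r ^ r = 1 := by
    intro r hr
    change (A ^ (n / r)) ^ r = 1
    rw [← pow_mul, Nat.div_mul_cancel (Nat.dvd_of_mem_primeFactors hr), hndef,
      pow_orderOf_eq_one]
  have hBne : ∀ r ∈ n.primeFactors, B r ≠ 1 := by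
    intro r hr h
    have h1 : n ∣ n / r := by
      have h' : A ^ (n / r) = 1 := h
      exact orderOf_dvd_of_pow_eq_one h'
    have hr' := Nat.prime_of_mem_primeFactors hr
    have h2 : 0 < n / r :=
      Nat.div_pos (Nat.le_of_dvd (Nat.pos_of_ne_zero hn) (Nat.dvd_of_mem_primeFactors hr)) hr'.pos
    have h3 := Nat.le_of_dvd h2 h1
    have h4 : n / r < n := Nat.div_lt_self (Nat.pos_of_ne_zero hn) hr'.one_lt
    omega
  -- the statement from a common fixed point and a choice of forbidden subgroup
  have main : ∀ (x₀ : P) (T : Finset ℕ), T ⊆ n.primeFactors → p ∉ T →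
      (∀ r ∈ T, B r x₀ = x₀) → (∀ U : Subgroup P, U ≠ ⊤ →
        (∀ r ∈ T, ∀ β : MulAut P, (∀ y, B r (x₀ * y) = x₀ * β y) → ∀ u ∈ U, β u ∈ U) →
        ∃ y, y ∉ U ∧ ∀ r ∈ T, B r (x₀ * y) ≠ x₀ * y) := by
    intro x₀ T hT hTp hfix U hU hUinv
    have hex : ∀ r : ℕ, ∃ β : MulAut P, r ∈ T → ∀ y, B r (x₀ * y) = x₀ * β y := by
      intro r
      by_cases hr : r ∈ T
      · obtain ⟨β, hβ⟩ := (hBaff r).recenter (hfix r hr)
        exact ⟨β, fun _ => hβ⟩
      · exact ⟨1, fun h => absurd h hr⟩
    choose β hβ using hex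
    have hβpow : ∀ r ∈ T, ∀ (k : ℕ) (y : P), (B r ^ k) (x₀ * y) = x₀ * (β r ^ k) y := by
      intro r hr k
      induction k with
      | zero => intro y; simp
      | succ k ih =>
        intro y
        rw [pow_succ, Equiv.Perm.mul_apply, hβ r hr, ih, pow_succ, MulAut.mul_apply]
    obtain ⟨y, hyU, hy⟩ := exists_moved_pgroup hP T β
      (fun r hr => Nat.prime_of_mem_primeFactors (hT hr)) hTp
      (by
        intro r hr
        apply MulEquiv.ext
        intro y
        have h1 := hβpow r hr r y
        rw [hBpow r (hT hr)] at h1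
        exact (mul_left_cancel h1).symm)
      (by
        intro r hr h1
        apply hBne r (hT hr)
        apply Equiv.ext
        intro x
        have h2 := hβ r hr (x₀⁻¹ * x)
        rw [h1] at h2
        simpa using h2)
      (by
        intro r hr s hs
        apply MulEquiv.ext
        intro y
        have h1 : B r (B s (x₀ * y)) = B s (B r (x₀ * y)) := by
          rw [← Equiv.Perm.mul_apply, (hBcomm r s).eq, Equiv.Perm.mul_apply]
        rw [hβ s hs, hβ r hr, hβ r hr, hβ s hs] at h1
        exact mul_left_cancel h1)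
      U hU (fun r hr => hUinv r hr (β r) (hβ r hr))
    refine ⟨y, hyU, ?_⟩
    intro r hr h
    rw [hβ r hr] at h
    exact hy r hr (mul_left_cancel h)
  -- subsingleton case
  by_cases hsub : Subsingleton P
  · refine ⟨1, minimalPeriod_eq A 1 hn ?_⟩
    intro r hr _
    apply hBne r hr
    apply Equiv.ext
    intro x
    exact Subsingleton.elim _ _
  have hnt : Nontrivial P := not_subsingleton_iff_nontrivial.mp hsub
  have hbot : (⊥ : Subgroup P) ≠ ⊤ := bot_ne_top
  by_cases hcase : p ∈ n.primeFactors ∧ ∃ x₁, B p x₁ = x₁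
  · obtain ⟨hpn, x₁, hx₁⟩ := hcase
    obtain ⟨x₀, h0S, h0T⟩ := exists_common_fixed hP {B p} (by
        rintro f rfl; exact hBaff p) x₁ (by rintro f rfl; exact hx₁)
      (n.primeFactors.erase p) B (fun r _ => hBaff r)
      (fun r hr => Nat.prime_of_mem_primeFactors (mem_of_mem_erase hr)) (notMem_erase p _)
      (fun r hr => hBpow r (mem_of_mem_erase hr)) (fun r _ s _ => hBcomm r s)
      (by rintro r _ f rfl; exact hBcomm r p)
    have h0p : B p x₀ = x₀ := h0S (B p) rfl
    obtain ⟨βp, hβp⟩ := (hBaff p).recenter h0p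
    obtain ⟨y, hyU, hy⟩ := main x₀ (n.primeFactors.erase p) (erase_subset _ _) (notMem_erase p _)
      h0T (fixedBy βp) (by
        intro h
        apply hBne p hpn
        apply Equiv.ext
        intro x
        have h1 : x₀⁻¹ * x ∈ fixedBy βp := by rw [h]; trivial
        have h2 := hβp (x₀⁻¹ * x)
        rw [mem_fixedBy.mp h1] at h2
        simpa using h2)
      (by
        intro r hr β hβ u hu
        rw [mem_fixedBy] at hu ⊢
        have h1 : B r (B p (x₀ * u)) = B p (B r (x₀ * u)) := by
          rw [← Equiv.Perm.mul_apply, (hBcomm r p).eq, Equiv.Perm.mul_apply]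
        rw [hβp, hβ, hβ, hβp, hu] at h1
        exact (mul_left_cancel h1).symm)
    refine ⟨x₀ * y, minimalPeriod_eq A _ hn ?_⟩
    intro r hr
    by_cases hrp : r = p
    · subst hrp
      intro h
      apply hyU
      rw [mem_fixedBy]
      have h2 : B r (x₀ * y) = x₀ * y := h
      rw [hβp] at h2
      exact mul_left_cancel h2
    · exact hy r (mem_erase.mpr ⟨hrp, hr⟩)
  · obtain ⟨x₀, -, h0T⟩ := exists_common_fixed hP ∅ (by simp) 1 (by simp)
      (n.primeFactors.erase p) B (fun r _ => hBaff r)
      (fun r hr => Nat.prime_of_mem_primeFactors (mem_of_mem_erase hr)) (notMem_erase p _)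
      (fun r hr => hBpow r (mem_of_mem_erase hr)) (fun r _ s _ => hBcomm r s)
      (by simp)
    obtain ⟨y, -, hy⟩ := main x₀ (n.primeFactors.erase p) (erase_subset _ _) (notMem_erase p _)
      h0T ⊥ hbot (by
        intro r hr β _ u hu
        rw [Subgroup.mem_bot] at hu ⊢
        rw [hu, map_one])
    refine ⟨x₀ * y, minimalPeriod_eq A _ hn ?_⟩
    intro r hr
    by_cases hrp : r = p
    · subst hrp
      intro h
      exact hcase ⟨hr, _, h⟩
    · exact hy r (mem_erase.mpr ⟨hrp, hr⟩)

end Q17.Affine
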