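import Pool.Agent.Q17.Affine.Affine

/-! From `p`-groups to nilpotent groups. -/

namespace Q17.Affine

open Finset

/-- An affine map of a finite product of `p i`-groups, `p i` distinct primes, attains its order as a
cycle length. -/
theorem affine_pi {ι : Type*} [Finite ι] (H : ι → Type*) [∀ i, Group (H i)] [∀ i, Finite (H i)]
    (p : ι → ℕ) (hp : ∀ i, (p i).Prime) (hinj : Function.Injective p)
    (hH : ∀ i, IsPGroup (p i) (H i)) (A : Equiv.Perm (∀ i, H i)) (hA : IsAffine A) :
    ∃ x, Function.minimalPeriod A x = orderOf A := by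
  classical
  have := Fintype.ofFinite ι
  obtain ⟨α, t, h⟩ := hA
  -- an endomorphism decomposes
  have hdec : ∀ (β : MulAut (∀ i, H i)) (z : ∀ i, H i) (j : ι), z j = 1 → (β z) j = 1 := by
    intro β z j hz
    have hex : ∀ i, ∃ k, Nat.card (H i) = p i ^ k := fun i => by
      have : Fact (p i).Prime := ⟨hp i⟩
      exact IsPGroup.iff_card.mp (hH i)
    set N := ∏ i ∈ univ.erase j, Nat.card (H i) with hN
    have h1 : z ^ N = 1 := by
      funext i
      by_cases hij : i = j
      · subst hij
        rw [Pi.pow_apply, hz, one_pow]; rfl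
      · rw [Pi.pow_apply]
        have : Nat.card (H i) ∣ N := dvd_prod_of_mem _ (mem_erase.mpr ⟨hij, mem_univ i⟩)
        obtain ⟨c, hc⟩ := this
        rw [hc, pow_mul, pow_card_eq_one', one_pow]; rfl
    have h2 : ((β z) j) ^ N = 1 := by
      have := congrArg (fun f => (β f) j) h1
      simpa using this
    have h3 : ((β z) j) ^ Nat.card (H j) = 1 := pow_card_eq_one'
    have hcop : N.Coprime (Nat.card (H j)) := by
      rw [hN]
      apply Nat.Coprime.prod_left
      intro i hi
      obtain ⟨k, hk⟩ := hex i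
      obtain ⟨l, hl⟩ := hex j
      rw [hk, hl]
      apply Nat.Coprime.pow
      rw [Nat.coprime_primes (hp i) (hp j)]
      intro hh
      exact (mem_erase.mp hi).1 (hinj hh)
    have h4 : orderOf ((β z) j) ∣ Nat.gcd N (Nat.card (H j)) :=
      Nat.dvd_gcd (orderOf_dvd_of_pow_eq_one h2) (orderOf_dvd_of_pow_eq_one h3)
    rw [hcop] at h4
    exact orderOf_eq_one_iff.mp (Nat.dvd_one.mp h4)
  have hloc : ∀ (β : MulAut (∀ i, H i)) (z w : ∀ i, H i) (j : ι), z j = w j →
      (β z) j = (β w) j := by
    intro β z w j hzw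
    have h1 : (β (z * w⁻¹)) j = 1 := hdec β _ j (by simp [hzw])
    rw [map_mul, map_inv, Pi.mul_apply, Pi.inv_apply] at h1
    exact mul_inv_eq_one.mp h1
  -- the components
  let comp : (j : ι) → MulAut (∀ i, H i) → MulAut (H j) := fun j β =>
    { toFun := fun y => (β (Pi.mulSingle j y)) j
      invFun := fun y => (β⁻¹ (Pi.mulSingle j y)) j
      left_inv := by
        intro y
        have h1 : (β⁻¹ (Pi.mulSingle j ((β (Pi.mulSingle j y)) j))) j =
            (β⁻¹ (β (Pi.mulSingle j y))) j := hloc β⁻¹ _ _ j (by simp)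
        change (β⁻¹ (Pi.mulSingle j ((β (Pi.mulSingle j y)) j))) j = y
        rw [h1, MulAut.inv_apply_self]
        simp
      right_inv := by
        intro y
        have h1 : (β (Pi.mulSingle j ((β⁻¹ (Pi.mulSingle j y)) j))) j =
            (β (β⁻¹ (Pi.mulSingle j y))) j := hloc β _ _ j (by simp)
        change (β (Pi.mulSingle j ((β⁻¹ (Pi.mulSingle j y)) j))) j = y
        rw [h1, MulAut.apply_inv_self]
        simp
      map_mul' := by
        intro a b
        rw [Pi.mulSingle_mul, map_mul, Pi.mul_apply] }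
  let C : (j : ι) → Equiv.Perm (H j) := fun j =>
    ((comp j α).toEquiv.trans (Equiv.mulLeft (t j)) : Equiv.Perm (H j))
  have hC : ∀ j y, C j y = t j * (comp j α) y := fun j y => rfl
  have hAC : ∀ x j, (A x) j = C j (x j) := by
    intro x j
    rw [h, hC, Pi.mul_apply]
    congr 1
    exact hloc α _ _ j (by simp)
  have hACpow : ∀ (n : ℕ) x j, ((A ^ n) x) j = ((C j) ^ n) (x j) := by
    intro n
    induction n with
    | zero => intro x j; rfl
    | succ n ih => intro x j; rw [pow_succ, Equiv.Perm.mul_apply, ih, hAC, pow_succ]; rfl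
  have hloc' : ∀ j, ∃ y, Function.minimalPeriod (C j) y = orderOf (C j) := by
    intro j
    have : Fact (p j).Prime := ⟨hp j⟩
    exact affine_pgroup (hH j) (C j) ⟨comp j α, t j, hC j⟩
  choose y hy using hloc'
  refine ⟨y, ?_⟩
  have hit : ∀ n : ℕ, (A : (∀ i, H i) → ∀ i, H i)^[n] y = (A ^ n) y := by
    intro n
    rw [Equiv.Perm.iterate_eq_pow]
  apply Nat.dvd_antisymm
  · apply Function.IsPeriodicPt.minimalPeriod_dvd
    change (A : (∀ i, H i) → ∀ i, H i)^[orderOf A] y = y
    rw [hit, pow_orderOf_eq_one]
    rfl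
  · apply orderOf_dvd_of_pow_eq_one
    apply Equiv.ext
    intro x
    funext j
    rw [hACpow]
    have h1 : Function.minimalPeriod (C j) (y j) ∣ Function.minimalPeriod A y := by
      apply Function.IsPeriodicPt.minimalPeriod_dvd
      change (C j : H j → H j)^[Function.minimalPeriod A y] (y j) = y j
      rw [Equiv.Perm.iterate_eq_pow, ← hACpow, ← hit]
      have : (A : (∀ i, H i) → ∀ i, H i)^[Function.minimalPeriod A y] y = y :=
        Function.isPeriodicPt_minimalPeriod A y
      rw [this]
    rw [hy j] at h1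
    obtain ⟨c, hc⟩ := h1
    rw [hc, pow_mul, pow_orderOf_eq_one, one_pow]
    rfl

/-- The main theorem: an affine map of a finite nilpotent group has a cycle of length its order. -/
theorem affine_nilpotent {G : Type*} [Group G] [Finite G] [Group.IsNilpotent G]
    (A : Equiv.Perm G) (hA : IsAffine A) : ∃ x, Function.minimalPeriod A x = orderOf A := by
  classical
  have hnil : Group.IsNilpotent G := inferInstance
  obtain ⟨e⟩ := ((Group.isNilpotent_of_finite_tfae (G := G)).out 0 4).mp hnil
  -- transport
  let K := ∀ p : (Nat.card G).primeFactors, ∀ P : Sylow p G, (↑P : Subgroup G)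
  let A' : Equiv.Perm K := (e.toEquiv.trans A).trans e.symm.toEquiv
  have hA'x : ∀ x, A' x = e.symm (A (e x)) := fun x => rfl
  have hA' : IsAffine A' := by
    obtain ⟨α, t, h⟩ := hA
    refine ⟨(e.trans α).trans e.symm, e.symm t, fun x => ?_⟩
    rw [hA'x, h, map_mul]
    rfl
  have hpow : ∀ (n : ℕ) x, (A' ^ n) x = e.symm ((A ^ n) (e x)) := by
    intro n
    induction n with
    | zero => intro x; simp
    | succ n ih =>
      intro x
      rw [pow_succ, Equiv.Perm.mul_apply, ih, hA'x, pow_succ, Equiv.Perm.mul_apply,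
        MulEquiv.apply_symm_apply]
  obtain ⟨x, hx⟩ := affine_pi (ι := (Nat.card G).primeFactors)
    (fun p => ∀ P : Sylow p G, (↑P : Subgroup G)) (fun p => (p : ℕ))
    (fun p => Nat.prime_of_mem_primeFactors p.2) Subtype.val_injective
    (by
      intro p
      have : Fact (p : ℕ).Prime := ⟨Nat.prime_of_mem_primeFactors p.2⟩
      have : Finite (Sylow p G) := inferInstance
      have := Fintype.ofFinite (Sylow (p : ℕ) G)
      rw [IsPGroup.iff_card, Nat.card_pi]
      have : ∀ P : Sylow (p : ℕ) G, ∃ k, Nat.card (↑P : Subgroup G) = (p : ℕ) ^ k := fun P =>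
        IsPGroup.iff_card.mp P.isPGroup'
      choose k hk using this
      refine ⟨∑ P, k P, ?_⟩
      rw [← Finset.prod_pow_eq_pow_sum]
      exact Finset.prod_congr rfl fun P _ => hk P) A' hA'
  refine ⟨e x, ?_⟩
  have hord : orderOf A' = orderOf A := by
    apply Nat.dvd_antisymm
    · apply orderOf_dvd_of_pow_eq_one
      apply Equiv.ext
      intro y
      rw [hpow, pow_orderOf_eq_one]
      simp
    · apply orderOf_dvd_of_pow_eq_one
      apply Equiv.ext
      intro y
      have := hpow (orderOf A') (e.symm y)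
      rw [pow_orderOf_eq_one, MulEquiv.apply_symm_apply] at this
      have h2 := congrArg e this
      simp at h2
      simp [← h2]
  rw [← hord, ← hx]
  apply Nat.dvd_antisymm
  · apply Function.IsPeriodicPt.minimalPeriod_dvd
    change (A : G → G)^[Function.minimalPeriod A' x] (e x) = e x
    have h1 : (A' : K → K)^[Function.minimalPeriod A' x] x = x :=
      Function.isPeriodicPt_minimalPeriod A' x
    rw [Equiv.Perm.iterate_eq_pow, hpow] at h1
    rw [Equiv.Perm.iterate_eq_pow]
    have h2 := congrArg e h1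
    simpa using h2
  · apply Function.IsPeriodicPt.minimalPeriod_dvd
    change (A' : K → K)^[Function.minimalPeriod A (e x)] x = x
    have h1 : (A : G → G)^[Function.minimalPeriod A (e x)] (e x) = e x :=
      Function.isPeriodicPt_minimalPeriod A (e x)
    rw [Equiv.Perm.iterate_eq_pow] at h1
    rw [Equiv.Perm.iterate_eq_pow, hpow, h1, MulEquiv.symm_apply_apply]

end Q17.Affine
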