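import Mathlib

/-! Common moved points of commuting automorphisms of distinct prime orders. -/

namespace Q17.Affine

open Finset

section comm

variable {V : Type*} [CommGroup V]

/-- the product `∏_{i < r} β^i v` -/
def nrm (β : MulAut V) (r : ℕ) (v : V) : V := ∏ i ∈ range r, (β ^ i) v

lemma nrm_mul (β : MulAut V) (r : ℕ) (v w : V) : nrm β r (v * w) = nrm β r v * nrm β r w := by
  unfold nrm
  rw [← prod_mul_distrib]
  exact prod_congr rfl fun i _ => map_mul _ _ _

lemma nrm_inv (β : MulAut V) (r : ℕ) (v : V) : nrm β r v⁻¹ = (nrm β r v)⁻¹ := by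
  unfold nrm
  rw [← prod_inv_distrib]
  exact prod_congr rfl fun i _ => map_inv _ _

lemma nrm_pow (β : MulAut V) (r : ℕ) (v : V) (k : ℕ) : nrm β r (v ^ k) = (nrm β r v) ^ k := by
  unfold nrm
  rw [← prod_pow]
  exact prod_congr rfl fun i _ => map_pow _ _ _

lemma nrm_fixed (β : MulAut V) (r : ℕ) {v : V} (h : β v = v) : nrm β r v = v ^ r := by
  have hi : ∀ i : ℕ, (β ^ i) v = v := by
    intro i
    induction i with
    | zero => simp
    | succ i ih => rw [pow_succ, MulAut.mul_apply, h, ih]
  unfold nrm
  rw [prod_congr rfl fun i _ => hi i]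
  simp

lemma map_nrm_self (β : MulAut V) (r : ℕ) (hr : β ^ r = 1) (v : V) :
    β (nrm β r v) = nrm β r v := by
  have h1 : β (nrm β r v) = ∏ i ∈ range r, (β ^ (i + 1)) v := by
    unfold nrm
    rw [map_prod]
    refine prod_congr rfl fun i _ => ?_
    rw [pow_succ', MulAut.mul_apply]
  have h2 : (∏ i ∈ range r, (β ^ (i + 1)) v) * (β ^ 0) v = ∏ i ∈ range (r + 1), (β ^ i) v :=
    (prod_range_succ' (fun i => (β ^ i) v) r).symm
  have h3 : ∏ i ∈ range (r + 1), (β ^ i) v = nrm β r v * (β ^ r) v :=
    prod_range_succ (fun i => (β ^ i) v) r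
  rw [h1]
  rw [h3, hr, pow_zero] at h2
  exact mul_right_cancel h2

lemma map_nrm (β γ : MulAut V) (h : Commute β γ) (r : ℕ) (v : V) :
    γ (nrm β r v) = nrm β r (γ v) := by
  unfold nrm
  rw [map_prod]
  refine prod_congr rfl fun i _ => ?_
  have := (h.pow_left i)
  rw [← MulAut.mul_apply, ← MulAut.mul_apply, this.eq]

lemma nrm_mem (β : MulAut V) (r : ℕ) (U : Subgroup V) (hU : ∀ u ∈ U, β u ∈ U) {u : V}
    (hu : u ∈ U) : nrm β r u ∈ U := by
  have hi : ∀ i : ℕ, (β ^ i) u ∈ U := by
    intro i
    induction i with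
    | zero => simpa
    | succ i ih =>
      rw [pow_succ', MulAut.mul_apply]
      exact hU _ ih
  unfold nrm
  exact U.prod_mem fun i _ => hi i

/-- Commuting nontrivial automorphisms `β r` of order `r` prime to `|V|` of a finite abelian group
all move some point outside a given proper invariant subgroup. -/
theorem exists_moved_comm [Finite V] (T : Finset ℕ) (β : ℕ → MulAut V)
    (hcop : ∀ r ∈ T, (Nat.card V).Coprime r)
    (hpow : ∀ r ∈ T, β r ^ r = 1) (hne : ∀ r ∈ T, β r ≠ 1)
    (hcomm : ∀ r ∈ T, ∀ s ∈ T, Commute (β r) (β s))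
    (U : Subgroup V) (hU : U ≠ ⊤) (hUinv : ∀ r ∈ T, ∀ u ∈ U, β r u ∈ U) :
    ∃ y, y ∉ U ∧ ∀ r ∈ T, β r y ≠ y := by
  classical
  induction T using Finset.induction_on with
  | empty =>
    obtain ⟨y, hy⟩ : ∃ y, y ∉ U := by
      by_contra h
      push Not at h
      exact hU ((Subgroup.eq_top_iff' U).mpr h)
    exact ⟨y, hy, by simp⟩
  | insert r T hrT ih =>
    obtain ⟨y, hyU, hy⟩ := ih (fun s hs => hcop s (mem_insert_of_mem hs))
      (fun s hs => hpow s (mem_insert_of_mem hs)) (fun s hs => hne s (mem_insert_of_mem hs))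
      (fun s hs t ht => hcomm s (mem_insert_of_mem hs) t (mem_insert_of_mem ht))
      (fun s hs => hUinv s (mem_insert_of_mem hs))
    have hr := mem_insert_self r T
    have hc := hcop r hr
    have hinj : ∀ a b : V, a ^ r = b ^ r → a = b := fun a b hab =>
      (powCoprime hc).injective hab
    by_cases hyr : β r y = y
    · obtain ⟨w₀, hw₀⟩ : ∃ w, β r w ≠ w := by
        by_contra h
        push Not at h
        exact hne r hr (MulEquiv.ext h)
      set w := w₀ ^ r * (nrm (β r) r w₀)⁻¹ with hw
      have hNfix := map_nrm_self (β r) r (hpow r hr) w₀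
      have hNw : nrm (β r) r w = 1 := by
        rw [hw, nrm_mul, nrm_inv, nrm_pow, nrm_fixed (β r) r hNfix, mul_inv_cancel]
      have hwfix : β r w ≠ w := by
        intro h
        have h1 : w ^ r = 1 ^ r := by rw [← nrm_fixed (β r) r h, hNw, one_pow]
        have h2 := hinj _ _ h1
        have h3 : w₀ ^ r = nrm (β r) r w₀ := by
          rw [hw] at h2
          exact mul_inv_eq_one.mp h2
        have h4 : (β r w₀) ^ r = w₀ ^ r := by
          rw [← map_pow, h3, hNfix]
        exact hw₀ (hinj _ _ h4)
      refine ⟨y * w, ?_, ?_⟩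
      · intro hmem
        have h1 := nrm_mem (β r) r U (hUinv r hr) hmem
        rw [nrm_mul, hNw, mul_one, nrm_fixed (β r) r hyr] at h1
        apply hyU
        -- `y` is a power of `y ^ r`
        have h2 : y = (powCoprime hc).symm (y ^ r) := by
          rw [Equiv.eq_symm_apply]
          rfl
        rw [h2, powCoprime]
        exact U.zpow_mem h1 _
      · intro s hs
        rw [mem_insert] at hs
        rcases hs with rfl | hs
        · rw [map_mul, hyr]
          intro h
          exact hwfix (mul_left_cancel h)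
        · intro h
          have hcm := hcomm r hr s (mem_insert_of_mem hs)
          have h1 := congrArg (nrm (β r) r) h
          rw [← map_nrm _ _ hcm, nrm_mul, hNw, mul_one, nrm_fixed _ _ hyr, map_pow] at h1
          exact hy s hs (hinj _ _ h1)
    · refine ⟨y, hyU, ?_⟩
      intro s hs
      rw [mem_insert] at hs
      rcases hs with rfl | hs
      · exact hyr
      · exact hy s hs

end comm

section nilp

variable {P : Type*} [Group P]

lemma eq_top_of_sup_commutator [Finite P] {p : ℕ} [Fact p.Prime] (hP : IsPGroup p P)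
    (U : Subgroup P) (h : U ⊔ commutator P = ⊤) : U = ⊤ := by
  by_contra hU
  obtain ⟨M, hM, hUM⟩ := (eq_top_or_exists_le_coatom U).resolve_left hU
  have hnil : Group.IsNilpotent P := hP.isNilpotent
  have hMn : M.Normal := Subgroup.NormalizerCondition.normal_of_coatom M
    Group.normalizerCondition_of_isNilpotent hM
  have hnt : Nontrivial (P ⧸ M) := by
    by_contra hh
    rw [not_nontrivial_iff_subsingleton, QuotientGroup.subsingleton_iff] at hh
    exact hM.1 hh
  have hQ : IsPGroup p (P ⧸ M) := hP.to_quotient M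
  have hc := hQ.center_nontrivial
  have hlt : M < (Subgroup.center (P ⧸ M)).comap (QuotientGroup.mk' M) := by
    refine lt_of_le_of_ne ?_ ?_
    · intro x hx
      rw [Subgroup.mem_comap]
      have : QuotientGroup.mk' M x = 1 := (QuotientGroup.eq_one_iff x).mpr hx
      rw [this]
      exact Subgroup.one_mem _
    · intro heq
      obtain ⟨z, hz⟩ := exists_ne (1 : Subgroup.center (P ⧸ M))
      obtain ⟨x, hx⟩ := QuotientGroup.mk'_surjective M z.1
      have : x ∈ M := by
        rw [heq, Subgroup.mem_comap, hx]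
        exact z.2
      have h1 : QuotientGroup.mk' M x = 1 := (QuotientGroup.eq_one_iff x).mpr this
      apply hz
      apply Subtype.ext
      rw [← hx, h1]
      rfl
  have htop := hM.2 _ hlt
  have hcomm : commutator P ≤ M := by
    rw [commutator_def, Subgroup.commutator_le]
    intro a _ b _
    have ha : a ∈ (Subgroup.center (P ⧸ M)).comap (QuotientGroup.mk' M) := by
      rw [htop]; trivial
    rw [Subgroup.mem_comap, Subgroup.mem_center_iff] at ha
    have h2 := ha (QuotientGroup.mk' M b)
    rw [← QuotientGroup.eq_one_iff]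
    change QuotientGroup.mk' M (a * b * a⁻¹ * b⁻¹) = 1
    rw [map_mul, map_mul, map_mul, ← h2, map_inv, map_inv]
    group
  have : (⊤ : Subgroup P) ≤ M := by
    rw [← h]
    exact sup_le hUM hcomm
  exact hM.1 (top_le_iff.mp this)

/-- the fixed subgroup of an automorphism -/
def fixedBy (β : MulAut P) : Subgroup P where
  carrier := {x | β x = x}
  one_mem' := map_one β
  mul_mem' := by
    intro a b ha hb
    simp only [Set.mem_ofPred_eq] at *
    rw [map_mul, ha, hb]
  inv_mem' := by
    intro a ha
    simp only [Set.mem_ofPred_eq] at *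
    rw [map_inv, ha]

lemma mem_fixedBy {β : MulAut P} {x : P} : x ∈ fixedBy β ↔ β x = x := Iff.rfl

lemma not_dvd_of_pgroup {p r : ℕ} [hp : Fact p.Prime] (hr : r.Prime) (hrp : r ≠ p) {n : ℕ}
    (hn : ∃ k, n = p ^ k) : ¬ r ∣ n := by
  obtain ⟨k, rfl⟩ := hn
  intro h
  exact hrp ((Nat.prime_dvd_prime_iff_eq hr hp.out).mp (hr.dvd_of_dvd_pow h))

/-- A coprime automorphism of prime order acting trivially on `P / P'` is trivial. -/
lemma eq_one_of_abelianization [Finite P] {p : ℕ} [hp : Fact p.Prime] (hP : IsPGroup p P)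
    {r : ℕ} (hr : r.Prime) (hrp : r ≠ p) (β : MulAut P) (hβ : β ^ r = 1)
    (h : ∀ x, Abelianization.of (β x) = Abelianization.of x) : β = 1 := by
  classical
  have hfix : fixedBy β = ⊤ := by
    apply eq_top_of_sup_commutator hP
    rw [eq_top_iff]
    intro x _
    -- fixed point in the coset of `x`
    have hβP' : ∀ z : P, x⁻¹ * z ∈ commutator P → x⁻¹ * β z ∈ commutator P := by
      intro z hz
      have h1 : Abelianization.of (x⁻¹ * z) = 1 := by
        rw [← MonoidHom.mem_ker, Abelianization.ker_of]; exact hz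
      rw [← Abelianization.ker_of, MonoidHom.mem_ker, map_mul, h z, ← map_mul]
      exact h1
    have hβP'' : ∀ z : P, x⁻¹ * z ∈ commutator P ↔ x⁻¹ * β z ∈ commutator P := by
      intro z
      refine ⟨hβP' z, ?_⟩
      intro hz
      rw [← Abelianization.ker_of, MonoidHom.mem_ker, map_mul] at hz ⊢
      rw [← h z]
      exact hz
    let X := {z : P // x⁻¹ * z ∈ commutator P}
    let σ : Equiv.Perm X := Equiv.Perm.subtypePerm (β.toEquiv : Equiv.Perm P) (by
      intro z
      exact (hβP'' z).symm)
    have hσ : ∀ (n : ℕ) (z : X), ((σ ^ n) z : P) = (β ^ n) (z : P) := by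
      intro n
      induction n with
      | zero => intro z; simp
      | succ n ih =>
        intro z
        rw [pow_succ, Equiv.Perm.mul_apply, ih, pow_succ, MulAut.mul_apply]
        rfl
    have hσr : σ ^ r ^ 1 = 1 := by
      rw [pow_one]
      apply Equiv.ext
      intro z
      apply Subtype.ext
      rw [hσ, hβ]
      rfl
    have e : X ≃ commutator P :=
      { toFun := fun z => ⟨x⁻¹ * z.1, z.2⟩
        invFun := fun c => ⟨x * c.1, by simp⟩
        left_inv := by intro z; apply Subtype.ext; simp
        right_inv := by intro z; apply Subtype.ext; simp }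
    have := Fintype.ofFinite X
    have hcard : Fintype.card X = Nat.card (commutator P) := by
      rw [← Nat.card_eq_fintype_card]; exact Nat.card_congr e
    have hndvd : ¬ r ∣ Fintype.card X := by
      rw [hcard]
      exact not_dvd_of_pgroup (p := p) hr hrp (IsPGroup.iff_card.mp (hP.to_subgroup _))
    have : Fact r.Prime := ⟨hr⟩
    obtain ⟨a, ha⟩ := Equiv.Perm.exists_fixed_point_of_prime (p := r) (n := 1) hndvd hσr
    have ha' : β a.1 = a.1 := by
      have := congrArg Subtype.val ha
      exact this
    have hxa : x = a.1 * (x⁻¹ * a.1)⁻¹ := by group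
    rw [hxa]
    exact Subgroup.mul_mem_sup (mem_fixedBy.mpr ha') (Subgroup.inv_mem _ a.2)
  apply MulEquiv.ext
  intro x
  have : x ∈ fixedBy β := by rw [hfix]; trivial
  exact this

/-- The main lemma on `p`-groups, with a forbidden proper invariant subgroup. -/
theorem exists_moved_pgroup [Finite P] {p : ℕ} [hp : Fact p.Prime] (hP : IsPGroup p P)
    (T : Finset ℕ) (β : ℕ → MulAut P) (hprime : ∀ r ∈ T, r.Prime) (hTp : p ∉ T)
    (hpow : ∀ r ∈ T, β r ^ r = 1) (hne : ∀ r ∈ T, β r ≠ 1)
    (hcomm : ∀ r ∈ T, ∀ s ∈ T, Commute (β r) (β s))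
    (U : Subgroup P) (hU : U ≠ ⊤) (hUinv : ∀ r ∈ T, ∀ u ∈ U, β r u ∈ U) :
    ∃ y, y ∉ U ∧ ∀ r ∈ T, β r y ≠ y := by
  classical
  set q : P →* Abelianization P := Abelianization.of with hq
  have hqs : Function.Surjective q := QuotientGroup.mk'_surjective _
  let γ : ℕ → MulAut (Abelianization P) := fun r => MulEquiv.abelianizationCongr (β r)
  have hγ : ∀ r x, γ r (q x) = q (β r x) := fun r x => rfl
  have hγpow : ∀ r n x, (γ r ^ n) (q x) = q ((β r ^ n) x) := by
    intro r n
    induction n with
    | zero => intro x; rfl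
    | succ n ih =>
      intro x
      rw [pow_succ, MulAut.mul_apply, hγ, ih, pow_succ, MulAut.mul_apply]
  have hfinA : Finite (Abelianization P) := Finite.of_surjective q hqs
  have hcardA : ∃ k, Nat.card (Abelianization P) = p ^ k :=
    IsPGroup.iff_card.mp (hP.of_surjective q hqs)
  obtain ⟨v, hvU, hv⟩ := exists_moved_comm T γ
    (by
      intro r hr
      obtain ⟨k, hk⟩ := hcardA
      rw [hk]
      apply Nat.Coprime.pow_left
      rw [Nat.coprime_primes hp.out (hprime r hr)]
      rintro rfl
      exact hTp hr)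
    (by
      intro r hr
      apply MulEquiv.ext
      intro v
      obtain ⟨x, rfl⟩ := hqs v
      rw [hγpow, hpow r hr]
      rfl)
    (by
      intro r hr h1
      apply hne r hr
      refine eq_one_of_abelianization hP (hprime r hr) (by rintro rfl; exact hTp hr) (β r)
        (hpow r hr) ?_
      intro x
      have := hγ r x
      rw [h1] at this
      exact this.symm)
    (by
      intro r hr s hs
      have h := hcomm r hr s hs
      apply MulEquiv.ext
      intro v
      obtain ⟨x, rfl⟩ := hqs v
      rw [MulAut.mul_apply, MulAut.mul_apply, hγ, hγ, hγ, hγ, ← MulAut.mul_apply, h.eq,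
        MulAut.mul_apply])
    (U.map q)
    (by
      intro h
      apply hU
      apply eq_top_of_sup_commutator hP
      rw [eq_top_iff]
      intro x _
      have hx : q x ∈ U.map q := by rw [h]; trivial
      obtain ⟨u, hu, hux⟩ := hx
      have h1 : u⁻¹ * x ∈ commutator P := by
        rw [← Abelianization.ker_of, MonoidHom.mem_ker, map_mul, map_inv]
        have : Abelianization.of u = Abelianization.of x := hux
        rw [this, inv_mul_cancel]
      have h2 : x = u * (u⁻¹ * x) := by group
      rw [h2]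
      exact Subgroup.mul_mem_sup hu h1)
    (by
      rintro r hr _ ⟨u, hu, rfl⟩
      exact ⟨β r u, hUinv r hr u hu, rfl⟩)
  obtain ⟨y, rfl⟩ := hqs v
  refine ⟨y, fun h => hvU ⟨y, h, rfl⟩, ?_⟩
  intro r hr h
  apply hv r hr
  rw [hγ, h]

end nilp

end Q17.Affine
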